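import Mathlib
import Pool.Agent.Zk17.TC.Dir
import Pool.Agent.Zk17.TC.Lz

/-!
# `π + e`, `π - e`, `π e`, `π / e` and all numbers `a π + b e` at all scales

Let `s` be `e`, `π` or the logarithm of a positive rational number, and let `t` be any nonzero real number. At most one
of the numbers `a t + b s`, `t ^ a s ^ b` is algebraic. Here this is made quantitative at all scales: a number `x` is
near at the scale `X` if some nonzero integer polynomial of degree at most `d` with coefficients at most `X ^ θ` has at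
`x` a value at most `1 / X`. For ALL linear forms `a t + b s` with `|a|, |b| ≤ X ^ θ` at once, and for every finite set of
numbers `a t + b s`, `t ^ a s ^ b`:

* At every large scale at most one of the numbers is near.
* If one of them is algebraic of degree at most `d` then it is near at all large scales and the others at no large scale.
* Otherwise every run of scales at which one of the numbers is near is followed by a void `(Z, Z ^ M]` in which no number
  is near, and there are arbitrarily large voids.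
* So one of the numbers is algebraic of degree at most `d` if and only if at every large scale one of them is near.

Moreover the number of all good approximations of height at most `X` is at most `log log X / log ρ + C`, and
the expansions of any two of the numbers, each in a base of its own, have many Lempel-Ziv phrases together.
-/

set_option autoImplicit false

namespace Pool.Agent.Results.MP_a49cf6_nt.AllScales

open Polynomial

/-- `s` is `e`, `π`, or the logarithm of a positive rational number different from `1` -/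
def Const (s : ℝ) : Prop :=
  s = Real.exp 1 ∨ s = Real.pi ∨ ∃ q : ℚ, 0 < q ∧ q ≠ 1 ∧ s = Real.log q

/-- the pairs of coprime integers `a`, `b` such that `a > 0`, or `a = 0` and `b = 1` -/
def Dir (a b : ℤ) : Prop := IsCoprime a b ∧ (0 < a ∨ (a = 0 ∧ b = 1))

/-- the nonzero numbers `a t + b s` and `t ^ a s ^ b` with such pairs `a`, `b` -/
def Fam (t s : ℝ) : Set ℝ :=
  {x | x ≠ 0 ∧ ∃ a b : ℤ, Dir a b ∧ (x = a * t + b * s ∨ x = t ^ a * s ^ b)}

/-- `x` is algebraic of degree at most `d` -/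
def Alg (d : ℕ) (x : ℝ) : Prop := ∃ P : ℤ[X], P ≠ 0 ∧ P.natDegree ≤ d ∧ aeval x P = 0

/-- some nonzero integer polynomial of degree at most `d` with coefficients at most `X ^ θ` in absolute value has at `x`
a value at most `1 / X` in absolute value -/
def Near (d : ℕ) (θ X x : ℝ) : Prop :=
  ∃ P : ℤ[X], P ≠ 0 ∧ P.natDegree ≤ d ∧ (∀ k, |((P.coeff k : ℤ) : ℝ)| ≤ X ^ θ) ∧ |aeval x P| ≤ X⁻¹

/-- the structure of the scales at which some of the objects `i : ι` are near; some of them are algebraic -/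
structure Scales {ι : Type} (alg : ι → Prop) (near : ℝ → ι → Prop) (M : ℝ) : Prop where
  /-- at every large scale at most one object is near -/
  one : ∃ K : ℝ, ∀ X ≥ K, ∀ i j, near X i → near X j → i = j
  /-- an algebraic object is near at all large scales, and then no other one is near at a large scale or algebraic -/
  algebraic : ∀ i, alg i → ∃ K : ℝ, ∀ X ≥ K, near X i ∧ ∀ j, j ≠ i → ¬ near X j ∧ ¬ alg j
  /-- runs and voids -/
  runs : (∀ i, ¬ alg i) → ∃ K : ℝ, ∀ X ≥ K, ∀ i, near X i → ∃ Z ≥ X,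
    (∀ Y, X ≤ Y → Y ≤ Z → ∀ j, near Y j → j = i) ∧ ∀ Y, Z < Y → Y ≤ Z ^ M → ∀ j, ¬ near Y j
  /-- there are arbitrarily large voids -/
  voids : (∀ i, ¬ alg i) → ∀ K : ℝ, ∃ Z ≥ K, ∀ Y, Z < Y → Y ≤ Z ^ M → ∀ j, ¬ near Y j
  /-- the criterion -/
  crit : (∃ i, alg i) ↔ ∃ K : ℝ, ∀ X ≥ K, ∃ i, near X i

/-- the height of a polynomial, the greatest absolute value of its coefficients -/
noncomputable def height (P : ℤ[X]) : ℕ := P.support.sup fun i => (P.coeff i).natAbs

/-- the pairs of a number `x ∈ S` and an irreducible integer polynomial `P` of degree at most `d` with positive leading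
coefficient and height at most `X` such that `|P(x)| ≤ height(P) ^ (-w)` -/
def Good (S : Finset ℝ) (d : ℕ) (w X : ℝ) : Set (ℝ × ℤ[X]) :=
  {p | p.1 ∈ S ∧ Irreducible p.2 ∧ p.2.natDegree ≤ d ∧ 0 < p.2.leadingCoeff ∧
    |aeval p.1 p.2| ≤ (height p.2 : ℝ) ^ (-w) ∧ (height p.2 : ℝ) ≤ X}

/-- the letters in the positions `n ≤ j < m` of `a` form one phrase: a single letter, or a copy of a block of letters
starting at an earlier position -/
def Phrase (a : ℕ → ℤ) (n m : ℕ) : Prop :=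
  m = n + 1 ∨ (n ≤ m ∧ ∃ p, 0 < p ∧ p ≤ n ∧ ∀ j, n ≤ j → j < m → a j = a (j - p))

/-- the first `L` letters of `a` are a concatenation of `z` phrases -/
def LZ (a : ℕ → ℤ) (L z : ℕ) : Prop :=
  ∃ c : ℕ → ℕ, c 0 = 0 ∧ c z = L ∧ ∀ i < z, Phrase a (c i) (c (i + 1))

/-- the integers `a 0, a 1, …` of absolute value at most `b ^ h` form an expansion of `x` in base `b`, up to an integer -/
def Expansion (b h : ℕ) (a : ℕ → ℤ) (x : ℝ) : Prop :=
  (∀ i, |a i| ≤ ((b ^ h : ℕ) : ℤ)) ∧ ∃ n : ℤ, HasSum (fun i => (a i : ℝ) / (b : ℝ) ^ (i + 1)) (x - n)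

lemma mem_iff {t s x : ℝ} : x ∈ Fam t s ↔ x ∈ Pool.Agent.Zk17.TC.Fam t s := by
  constructor
  · rintro ⟨h0, a, b, ⟨h1, h2⟩, h3⟩
    exact ⟨h0, a, b, h1, h2, h3⟩
  · rintro ⟨h0, a, b, h1, h2, h3⟩
    exact ⟨h0, a, b, ⟨h1, h2⟩, h3⟩

lemma const_ne {s : ℝ} (h : Const s) : s ≠ 0 := by
  rcases h with h | h | ⟨q, hq, hq1, h⟩
  · rw [h]; exact (Real.exp_pos 1).ne'
  · rw [h]; exact Real.pi_ne_zero
  · rw [h]
    have h1 : (q : ℝ) ≠ 1 := by exact_mod_cast hq1
    have h2 : (0 : ℝ) < q := by exact_mod_cast hq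
    exact Real.log_ne_zero_of_pos_of_ne_one h2 h1

lemma const_meas {s : ℝ} (h : Const s) : Pool.Agent.TH456.TM.MeasT (s : ℂ) := by
  rcases h with h | h | ⟨q, hq, hq1, h⟩
  · rw [h]; exact Pool.Agent.TH456.TM.measT_e
  · rw [h]; exact Pool.Agent.TH456.TM.measT_pi
  · rw [h]; exact Pool.Agent.TH456.TM.measT_real_log q hq hq1

theorem joint {s t : ℝ} (hs : Const s) (ht : t ≠ 0) {x y : ℝ} (hx : x ∈ Fam t s) (hy : y ∈ Fam t s)
    (hne : x ≠ y) : Pool.Agent.R356.JointR x y :=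
  Pool.Agent.Zk17.TC.joint_fam t s ht (const_ne hs) (const_meas hs) x y (mem_iff.1 hx) (mem_iff.1 hy) hne

theorem of_dichotomy {ι : Type} {alg : ι → Prop} {near : ℝ → ι → Prop} {M : ℝ}
    (D : Pool.Agent.N743.Dichotomy alg near M) : Scales alg near M :=
  ⟨D.excl, D.good_case, D.void_case, D.voids, D.equiv⟩

lemma mem_four : ∀ x ∈ ({Real.pi + Real.exp 1, Real.pi - Real.exp 1, Real.pi * Real.exp 1,
    Real.pi / Real.exp 1} : Set ℝ), x ∈ Fam Real.pi (Real.exp 1) := by
  have hp := Real.pi_pos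
  have he := Real.exp_pos 1
  have h3 := Real.pi_gt_three
  have h4 := Real.exp_one_lt_d9
  rintro x (rfl | rfl | rfl | rfl)
  · exact ⟨by positivity, 1, 1, ⟨isCoprime_one_left, Or.inl one_pos⟩, Or.inl (by simp)⟩
  · exact ⟨by linarith, 1, -1, ⟨isCoprime_one_left, Or.inl one_pos⟩, Or.inl (by simp; ring)⟩
  · exact ⟨by positivity, 1, 1, ⟨isCoprime_one_left, Or.inl one_pos⟩, Or.inr (by simp)⟩
  · exact ⟨by positivity, 1, -1, ⟨isCoprime_one_left, Or.inl one_pos⟩, Or.inr (by
      simp [div_eq_mul_inv])⟩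

/-- **`π + e`, `π - e`, `π e`, `π / e` and all numbers `a π + b e` at all scales.** -/
theorem result :
    (∀ x ∈ ({Real.pi + Real.exp 1, Real.pi - Real.exp 1, Real.pi * Real.exp 1,
      Real.pi / Real.exp 1} : Set ℝ), x ∈ Fam Real.pi (Real.exp 1)) ∧
    ∀ s t : ℝ, Const s → t ≠ 0 →
      -- all linear forms at once
      (∀ d : ℕ, ∀ M : ℝ, 1 < M → ∃ θ₀ : ℝ, 0 < θ₀ ∧ ∀ θ : ℝ, 0 < θ → θ ≤ θ₀ →
        Scales (fun p : {p : ℤ × ℤ // Dir p.1 p.2} => Alg d (p.1.1 * t + p.1.2 * s))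
          (fun X p => (|p.1.1| : ℝ) ≤ X ^ θ ∧ (|p.1.2| : ℝ) ≤ X ^ θ ∧
            Near d θ X (p.1.1 * t + p.1.2 * s)) M) ∧
      (∀ S : Finset ℝ, (∀ x ∈ S, x ∈ Fam t s) → ∀ d : ℕ,
        -- finite sets
        (∀ M : ℝ, 1 < M → ∃ θ₀ : ℝ, 0 < θ₀ ∧ ∀ θ : ℝ, 0 < θ → θ ≤ θ₀ →
          Scales (fun x : S => Alg d (x : ℝ)) (fun X x => Near d θ X (x : ℝ)) M) ∧
        -- good approximations
        ∃ κ : ℝ, 0 < κ ∧ ∀ w ρ : ℝ, 1 < ρ → ρ < w / κ → ∃ C : ℝ, ∀ X : ℝ, 3 ≤ X →
          (Good S d w X).Finite ∧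
            ((Good S d w X).ncard : ℝ) ≤ Real.log (Real.log X) / Real.log ρ + C) ∧
      -- expansions
      ∀ x ∈ Fam t s, ∀ y ∈ Fam t s, x ≠ y → ∀ h : ℕ, ∃ C : ℝ, 0 < C ∧ ∀ b b' : ℕ, 2 ≤ b → 2 ≤ b' →
        ∀ a a' : ℕ → ℤ, Expansion b h a x → Expansion b' h a' y →
          ∀ L L' z z' : ℕ, LZ a L z → LZ a' L' z' →
            min (L * Real.log b) (L' * Real.log b') ≤
              (Real.log b + Real.log b') * C ^ (z + z' + 1) := by
  refine ⟨mem_four, fun s t hs ht => ⟨fun d M hM => ?_, fun S hS d => ⟨fun M hM => ?_, ?_⟩, ?_⟩⟩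
  · obtain ⟨θ₀, h0, h⟩ := Pool.Agent.Zk17.TC.dichotomy_dir t s (const_meas hs) d M hM
    refine ⟨θ₀, h0, fun θ h1 h2 => of_dichotomy ?_⟩
    have e : (fun (X : ℝ) (p : {p : ℤ × ℤ // Dir p.1 p.2}) => (|p.1.1| : ℝ) ≤ X ^ θ ∧ (|p.1.2| : ℝ) ≤ X ^ θ ∧
        Near d θ X (p.1.1 * t + p.1.2 * s)) = fun X p =>
          ((Pool.Agent.Zk17.TC.sz p.1 : ℤ) : ℝ) ≤ X ^ θ ∧
            Pool.Agent.N743.AlgNear d θ X (Pool.Agent.Zk17.TC.form t s p.1) := by
      funext X p
      refine propext ?_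
      rw [← and_assoc]
      refine and_congr ?_ Iff.rfl
      unfold Pool.Agent.Zk17.TC.sz
      push_cast
      rw [max_le_iff]
    rw [e]
    exact h θ h1 h2
  · obtain ⟨θ₀, h0, h⟩ := Pool.Agent.N743.dichotomy_alg (ι := S) (fun x => (x : ℝ))
      (fun i j hij => joint hs ht (hS i i.2) (hS j j.2) (fun e => hij (Subtype.ext e))) d M hM
    exact ⟨θ₀, h0, fun θ h1 h2 => of_dichotomy (h θ h1 h2)⟩
  · exact Pool.Agent.R356.sparse_joint S (fun x => x)
      (fun i hi j hj hij => joint hs ht (hS i hi) (hS j hj) hij) d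
  · intro x hx y hy hne h
    obtain ⟨C, hC, hmain⟩ := Pool.Agent.Zk17.TC.lz_pair x y (joint hs ht hx hy hne) h
    exact ⟨C, hC, fun b b' hb hb' a a' ha ha' L L' z z' hz hz' =>
      hmain b b' hb hb' a a' ha.1 ha'.1 ha.2 ha'.2 L L' z z' hz hz'⟩

end Pool.Agent.Results.MP_a49cf6_nt.AllScales
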