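import Pool.Agent.Zk26.Forms2
import Pool.Agent.Zk26.Finite

set_option autoImplicit false

/-!
# Four of the five numbers for multiples of `π` and `e`

The five numbers `x + y`, `x y`, `x ^ y`, `y ^ y`, `x ^ x` are considered for all algebraic
multiples `x = r π`, `y = t e`; more generally for `x = r x₀`, `y = t e ^ u₀`, where `x₀` and `u₀`
are real linear forms in `1` and logarithms of algebraic numbers (with algebraic coefficients)
which are not linear forms in real logarithms, for instance `x₀ = π + c` and `u₀ = s ≠ 0`.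
At least four of the five numbers are transcendental if `r` and `t` do not belong to certain
sets of rank at most one and if `t ≠ ρ r`; the exceptional sets of rank one have only finitely
many elements of bounded degree in every compact interval.  The numbers `x ^ x`, `y ^ y`, `x ^ y`
are not even of the form `e ^ β₀ α₁ ^ β₁ ⋯ αₙ ^ βₙ` with algebraic `αᵢ`, `βᵢ`.

The proof is based on the strong six exponentials theorem of Roy and on Baker's theorem.
-/

namespace Pool.Agent.Results.MP_a49cf6_nt.FourForMultiples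

open Pool.Agent.H301R2.SSE Pool.Agent.Zk26

/-- all numbers `β₀ + β₁ λ₁ + ⋯ + βₙ λₙ` with algebraic `βᵢ` and algebraic `e ^ λᵢ` -/
noncomputable def LogForms : Submodule (algebraicClosure ℚ ℂ) ℂ :=
  Submodule.span (algebraicClosure ℚ ℂ) ({1} ∪ {z : ℂ | IsAlgebraic ℚ (Complex.exp z)})

/-- all numbers `β₁ log a₁ + ⋯ + βₙ log aₙ` with algebraic `βᵢ` and positive algebraic `aᵢ` -/
noncomputable def RealLogs : Submodule (algebraicClosure ℚ ℂ) ℂ :=
  Submodule.span (algebraicClosure ℚ ℂ)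
    {z : ℂ | ∃ a : ℝ, 0 < a ∧ IsAlgebraic ℚ a ∧ z = ((Real.log a : ℝ) : ℂ)}

/-- linear forms in `1` and logarithms which are not linear forms in real logarithms -/
def Proper (u : ℝ) : Prop := (u : ℂ) ∈ LogForms ∧ (u : ℂ) ∉ RealLogs

/-- the real numbers `e ^ z`, `z` in `LogForms` -/
def ExpForm (x : ℝ) : Prop := ∃ z ∈ LogForms, Complex.exp z = (x : ℂ)

/-- the quotients of the elements of `S` generate a group of rank at most `k` -/
def RankLE (k : ℕ) (S : Set ℝ) : Prop :=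
  ∀ a ∈ S, ∀ f : Fin (k + 1) → ℝ, (∀ i, f i ∈ S) →
    ∃ m : Fin (k + 1) → ℤ, m ≠ 0 ∧ ∏ i, (f i / a) ^ m i = 1

theorem diff_mem {θ w : ℂ} {a b : ℝ} (ha : 0 < a) (hb : 0 < b)
    (h1 : θ * (((Real.log a : ℝ) : ℂ) + w) ∈ Lt) (h2 : θ * (((Real.log b : ℝ) : ℂ) + w) ∈ Lt) :
    θ * ((Real.log (b / a) : ℝ) : ℂ) ∈ Lt := by
  have h3 := Lt.sub_mem h2 h1
  have h4 : θ * (((Real.log b : ℝ) : ℂ) + w) - θ * (((Real.log a : ℝ) : ℂ) + w) =
      θ * ((Real.log (b / a) : ℝ) : ℂ) := by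
    rw [Real.log_div hb.ne' ha.ne']
    push_cast
    ring
  rwa [h4] at h3

/-- the sets `{r : θ (log r + w) ∈ 𝓛}` -/
def expSet (θ w : ℂ) : Set ℝ :=
  {r : ℝ | 0 < r ∧ IsAlgebraic ℚ r ∧ θ * (((Real.log r : ℝ) : ℂ) + w) ∈ Lt}

theorem expSet_rank {θ w v : ℂ} (hθ : Transcendental ℚ θ) (hv : v ∉ Lr) (hvL : v ∈ Lt)
    (hvθ : θ * v ∈ Lt) : RankLE 1 (expSet θ w) := by
  intro a ha f hf
  exact six_core hθ hv hvL hvθ (fun i => div_pos (hf i).1 ha.1)
    (fun i => by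
      have := (hf i).2.1.mul ha.2.1.inv
      rwa [← div_eq_mul_inv] at this)
    (fun i => diff_mem ha.1 (hf i).1 ha.2.2 (hf i).2.2)

theorem expSet_rank2 {θ w : ℂ} (hθ : Transcendental ℚ θ) : RankLE 2 (expSet θ w) := by
  intro a ha f hf
  exact six_core3 hθ (fun i => div_pos (hf i).1 ha.1)
    (fun i => by
      have := (hf i).2.1.mul ha.2.1.inv
      rwa [← div_eq_mul_inv] at this)
    (fun i => diff_mem ha.1 (hf i).1 ha.2.2 (hf i).2.2)

theorem transC {x : ℝ} (h : Transcendental ℚ x) : Transcendental ℚ (x : ℂ) :=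
  fun h1 => h (ofC h1)

/-- the exponent of a power is moved out -/
theorem pow_mem {r t X E : ℝ} (hr : 0 < r) (hX : 0 < X) (ht : 0 < t) (hta : IsAlgebraic ℚ t)
    (h : ExpForm ((r * X) ^ (t * E))) :
    (E : ℂ) * (((Real.log r : ℝ) : ℂ) + ((Real.log X : ℝ) : ℂ)) ∈ Lt := by
  have h1 := InB_rpow (mul_pos hr hX) h
  have h2 := Lt_mul (toC hta.inv) h1
  have ht' : (t : ℂ) ≠ 0 := by exact_mod_cast ht.ne'
  have h3 : ((t⁻¹ : ℝ) : ℂ) * (((t * E : ℝ) : ℂ) * ((Real.log (r * X) : ℝ) : ℂ)) =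
      (E : ℂ) * (((Real.log r : ℝ) : ℂ) + ((Real.log X : ℝ) : ℂ)) := by
    rw [Real.log_mul hr.ne' hX.ne']
    push_cast
    field_simp
  rwa [h3] at h2

/-- **Four of the five numbers for multiples.** -/
theorem result :
    -- nonzero algebraic numbers are of the form `e ^ z` with `z` in `LogForms`
    (∀ x : ℝ, x ≠ 0 → IsAlgebraic ℚ x → ExpForm x) ∧
    -- `π + c` and `s ≠ 0` are admissible, in particular `π` and `1`
    (∀ c s : ℝ, IsAlgebraic ℚ c → IsAlgebraic ℚ s → s ≠ 0 →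
      Proper (Real.pi + c) ∧ Transcendental ℚ (Real.pi + c) ∧ Proper s) ∧
    -- `(π + c) e ^ s` is transcendental for all pairs `(c, s)` with at most one exception
    (∃ c₀ s₀ : ℝ, ∀ c s : ℝ, IsAlgebraic ℚ c → IsAlgebraic ℚ s → s ≠ 0 → (c, s) ≠ (c₀, s₀) →
      Transcendental ℚ ((Real.pi + c) * Real.exp s)) ∧
    -- the main result
    ∀ x₀ u₀ : ℝ, 0 < x₀ → Transcendental ℚ x₀ → Proper x₀ → Proper u₀ →
      ∃ (ρ : ℝ) (R₁ R₂ R₃ T : Set ℝ),
        RankLE 1 R₁ ∧ RankLE 1 R₂ ∧ RankLE 1 T ∧ RankLE 2 R₃ ∧ (T.Nonempty → RankLE 1 R₃) ∧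
        (∀ (d : ℕ) (M : ℝ), {r : ℝ | r ∈ R₁ ∪ R₂ ∪ T ∧
          (minpoly ℚ r).natDegree ≤ d ∧ |Real.log r| ≤ M}.Finite) ∧
        ∀ r t : ℝ, 0 < r → 0 < t → IsAlgebraic ℚ r → IsAlgebraic ℚ t →
          ∀ x y : ℝ, x = r * x₀ → y = t * Real.exp u₀ →
            (t ≠ ρ * r → Transcendental ℚ (x + y)) ∧
            (r ∉ R₁ → ¬ ExpForm (x ^ x)) ∧
            (t ∉ T → ¬ ExpForm (y ^ y)) ∧
            (r ∉ R₂ → Transcendental ℚ (x * y) ∨ ¬ ExpForm (x ^ y)) ∧
            (r ∉ R₃ → ¬ ExpForm (x ^ y)) := by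
  refine ⟨fun x hx h => InB_of_alg hx h, ?_, ?_, ?_⟩
  · intro c s hc hs hs0
    refine ⟨⟨?_, ?_⟩, ?_, ⟨Lt_alg (toC hs), ?_⟩⟩
    · change ((Real.pi + c : ℝ) : ℂ) ∈ Lt
      push_cast
      exact Lt.add_mem Lt_pi (Lt_alg (toC hc))
    · intro h
      have h1 : (1 : ℂ) * (Real.pi : ℂ) + (c : ℂ) ∈ Lr := by
        have h2 : ((Real.pi + c : ℝ) : ℂ) ∈ Lr := h
        push_cast at h2
        rwa [one_mul]
      exact one_ne_zero (Lr_pi (toC hc) isAlgebraic_one h1).1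
    · intro h
      have h1 := h.sub hc
      rw [add_sub_cancel_right] at h1
      exact Pool.Agent.H340R2.LW.transcendental_pi h1
    · intro h
      have h1 : (s : ℂ) ∈ LB := Lr_le_LB h
      have h2 := LB_alg h1 (toC hs)
      exact hs0 (by exact_mod_cast h2)
  · -- at most one exception
    by_cases hex : ∃ c₀ s₀ : ℝ, IsAlgebraic ℚ c₀ ∧ IsAlgebraic ℚ s₀ ∧ s₀ ≠ 0 ∧
        IsAlgebraic ℚ ((Real.pi + c₀) * Real.exp s₀)
    · obtain ⟨c₀, s₀, hc₀, hs₀, hs₀0, hk⟩ := hex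
      refine ⟨c₀, s₀, fun c s hc hs hs0 hne hk' => hne ?_⟩
      obtain ⟨κ, hκ⟩ : ∃ κ : ℝ, κ = (Real.pi + c₀) * Real.exp s₀ := ⟨_, rfl⟩
      obtain ⟨κ', hκ'⟩ : ∃ κ' : ℝ, κ' = (Real.pi + c) * Real.exp s := ⟨_, rfl⟩
      rw [← hκ] at hk
      rw [← hκ'] at hk'
      have e1 : κ * Real.exp (-s₀) = Real.pi + c₀ := by
        rw [hκ, mul_assoc, ← Real.exp_add]; simp
      have e2 : κ' * Real.exp (-s) = Real.pi + c := by
        rw [hκ', mul_assoc, ← Real.exp_add]; simp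
      by_cases hss : s = s₀
      · subst hss
        have h1 : (κ' - κ) * Real.exp (-s) = c - c₀ := by
          rw [sub_mul, e1, e2]; ring
        have h2 : c = c₀ := by
          by_contra hcc
          have h3 : κ' - κ ≠ 0 := by
            intro h3
            rw [h3, zero_mul] at h1
            exact hcc (by linarith)
          have h4 : Real.exp (-s) = (c - c₀) / (κ' - κ) := by
            rw [← h1]; field_simp
          have h5 : IsAlgebraic ℚ (Real.exp (-s)) := by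
            rw [h4, div_eq_mul_inv]
            exact (hc.sub hc₀).mul (hk'.sub hk).inv
          have h6 := Pool.Agent.H340R2.LW.transcendental_cexp ((-s : ℝ) : ℂ) (toC hs.neg)
            (by
              have : -s ≠ 0 := neg_ne_zero.mpr hs0
              exact_mod_cast this)
          apply h6
          rw [← Complex.ofReal_exp]
          exact toC h5
        rw [h2]
      · exfalso
        have h1 : ((c - c₀ : ℝ) : ℂ) + ((κ : ℝ) : ℂ) * Complex.exp (((-s₀ : ℝ) : ℂ)) +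
            ((-κ' : ℝ) : ℂ) * Complex.exp (((-s : ℝ) : ℂ)) = 0 := by
          have h2 : (c - c₀) + κ * Real.exp (-s₀) + (-κ') * Real.exp (-s) = 0 := by
            rw [neg_mul, e1, e2]; ring
          rw [← Complex.ofReal_exp, ← Complex.ofReal_exp]
          exact_mod_cast congrArg (fun v : ℝ => (v : ℂ)) h2
        have h3 := Pool.Agent.H340R2.LW.exp_linearIndependent_aux _ _ _ _ _ (toC hs₀.neg)
          (toC hs.neg)
          (by
            have : -s₀ ≠ 0 := neg_ne_zero.mpr hs₀0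
            exact_mod_cast this)
          (by
            have : -s ≠ 0 := neg_ne_zero.mpr hs0
            exact_mod_cast this)
          (by
            intro h4
            have h5 : -s₀ = -s := by exact_mod_cast h4
            exact hss (neg_injective h5).symm)
          (toC (hc.sub hc₀)) (toC hk) (toC hk'.neg) h1
        have h4 : κ = 0 := by exact_mod_cast h3.2.1
        rw [h4, zero_mul] at e1
        have h5 : Real.pi = -c₀ := by linarith
        exact Pool.Agent.H340R2.LW.transcendental_pi (by rw [h5]; exact hc₀.neg)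
    · exact ⟨0, 0, fun c s hc hs hs0 _ h => hex ⟨c, s, hc, hs, hs0, h⟩⟩
  · intro x₀ u₀ hx₀ hxt hxP huP
    obtain ⟨hxL, hxR⟩ : (x₀ : ℂ) ∈ Lt ∧ (x₀ : ℂ) ∉ Lr := hxP
    obtain ⟨huL, huR⟩ : (u₀ : ℂ) ∈ Lt ∧ (u₀ : ℂ) ∉ Lr := huP
    have hθ : Transcendental ℚ (Real.exp u₀) := exp_trans huR
    have hθC : Transcendental ℚ ((Real.exp u₀ : ℝ) : ℂ) := transC hθ
    have hxC : Transcendental ℚ (x₀ : ℂ) := transC hxt
    have h1R : (1 : ℂ) ∉ Lr := fun h => one_ne_zero (LB_alg (Lr_le_LB h) isAlgebraic_one)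
    have hE0 : Real.exp u₀ ≠ 0 := (Real.exp_pos u₀).ne'
    -- the ratio
    obtain ⟨ρ, hρ⟩ : ∃ ρ : ℝ, ∀ r t : ℝ, 0 < r → 0 < t → IsAlgebraic ℚ r → IsAlgebraic ℚ t →
        IsAlgebraic ℚ (r * x₀ + t * Real.exp u₀) → t = ρ * r := by
      by_cases hex : ∃ r t : ℝ, 0 < r ∧ IsAlgebraic ℚ r ∧ IsAlgebraic ℚ t ∧
          IsAlgebraic ℚ (r * x₀ + t * Real.exp u₀)
      · obtain ⟨r₁, t₁, hr₁, hra₁, hta₁, h₁⟩ := hex
        refine ⟨t₁ / r₁, fun r t hr ht hra hta h => ?_⟩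
        by_contra hne
        have h2 : IsAlgebraic ℚ ((t * r₁ - t₁ * r) * Real.exp u₀) := by
          have h3 : (t * r₁ - t₁ * r) * Real.exp u₀ =
              r₁ * (r * x₀ + t * Real.exp u₀) - r * (r₁ * x₀ + t₁ * Real.exp u₀) := by ring
          rw [h3]
          exact (hra₁.mul h).sub (hra.mul h₁)
        have h4 : t * r₁ - t₁ * r ≠ 0 := by
          intro h4
          apply hne
          field_simp
          linarith
        apply hθ
        have h5 : Real.exp u₀ = (t * r₁ - t₁ * r)⁻¹ * ((t * r₁ - t₁ * r) * Real.exp u₀) := by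
          field_simp
        rw [h5]
        exact ((hta.mul hra₁).sub (hta₁.mul hra)).inv.mul h2
      · exact ⟨0, fun r t hr ht hra hta h => (hex ⟨r, t, hr, hra, hta, h⟩).elim⟩
    have hRT : ∀ {S : Set ℝ}, RankLE 1 S → (∀ r ∈ S, 0 < r ∧ IsAlgebraic ℚ r) →
        ∀ (d : ℕ) (M : ℝ),
          {r : ℝ | r ∈ S ∧ (minpoly ℚ r).natDegree ≤ d ∧ |Real.log r| ≤ M}.Finite := by
      intro S hS hpos d M
      refine (rank_one_finite hS d M).subset ?_
      rintro r ⟨h1, h2, h3⟩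
      exact ⟨h1, (hpos r h1).1, (hpos r h1).2, h2, h3⟩
    have hR₁ : RankLE 1 (expSet (x₀ : ℂ) ((Real.log x₀ : ℝ) : ℂ)) :=
      expSet_rank hxC h1R Lt_one (by rw [mul_one]; exact hxL)
    have hR₃ : RankLE 2 (expSet ((Real.exp u₀ : ℝ) : ℂ) ((Real.log x₀ : ℝ) : ℂ)) :=
      expSet_rank2 hθC
    have key : ∀ (t : ℝ) (w : ℂ), t ∈ expSet ((Real.exp u₀ : ℝ) : ℂ) (u₀ : ℂ) →
        RankLE 1 (expSet ((Real.exp u₀ : ℝ) : ℂ) w) := by
      intro t w ht
      refine expSet_rank (v := ((Real.log t : ℝ) : ℂ) + (u₀ : ℂ)) hθC ?_ ?_ ht.2.2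
      · intro h
        apply huR
        have := Lr.sub_mem h (Lr_log ht.1 ht.2.1)
        rwa [add_sub_cancel_left] at this
      · exact Lt.add_mem (Lt_logr ht.1 ht.2.1) huL
    have hT : RankLE 1 (expSet ((Real.exp u₀ : ℝ) : ℂ) (u₀ : ℂ)) := by
      intro a ha f hf
      exact key a _ ha a ha f hf
    have hR₂ : RankLE 1 {r : ℝ | r ∈ expSet ((Real.exp u₀ : ℝ) : ℂ) ((Real.log x₀ : ℝ) : ℂ) ∧
        IsAlgebraic ℚ (x₀ * Real.exp u₀)} := by
      intro a ha f hf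
      refine expSet_rank (v := (x₀ : ℂ)) (w := ((Real.log x₀ : ℝ) : ℂ)) hθC hxR hxL ?_ a ha.1 f
        (fun i => (hf i).1)
      have h1 := toC ha.2
      push_cast at h1
      rw [mul_comm]
      push_cast
      exact Lt_alg h1
    refine ⟨ρ, expSet (x₀ : ℂ) ((Real.log x₀ : ℝ) : ℂ),
      {r : ℝ | r ∈ expSet ((Real.exp u₀ : ℝ) : ℂ) ((Real.log x₀ : ℝ) : ℂ) ∧
        IsAlgebraic ℚ (x₀ * Real.exp u₀)},
      expSet ((Real.exp u₀ : ℝ) : ℂ) ((Real.log x₀ : ℝ) : ℂ),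
      expSet ((Real.exp u₀ : ℝ) : ℂ) (u₀ : ℂ), hR₁, hR₂, hT, hR₃, ?_, ?_, ?_⟩
    · rintro ⟨t, ht⟩
      exact key t _ ht
    · intro d M
      refine (((hRT hR₁ (fun r hr => ⟨hr.1, hr.2.1⟩) d M).union
        (hRT hR₂ (fun r hr => ⟨hr.1.1, hr.1.2.1⟩) d M)).union
        (hRT hT (fun r hr => ⟨hr.1, hr.2.1⟩) d M)).subset ?_
      rintro r ⟨(h | h) | h, h2, h3⟩
      · exact Or.inl (Or.inl ⟨h, h2, h3⟩)
      · exact Or.inl (Or.inr ⟨h, h2, h3⟩)
      · exact Or.inr ⟨h, h2, h3⟩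
    · rintro r t hr ht hra hta x y rfl rfl
      refine ⟨?_, ?_, ?_, ?_, ?_⟩
      · intro hne h
        exact hne (hρ r t hr ht hra hta h)
      · intro hr1 h
        exact hr1 ⟨hr, hra, pow_mem hr hx₀ hr hra h⟩
      · intro ht1 h
        refine ht1 ⟨ht, hta, ?_⟩
        have := pow_mem ht (Real.exp_pos u₀) ht hta h
        rwa [Real.log_exp] at this
      · intro hr2
        by_contra hcon
        push Not at hcon
        obtain ⟨h1, h2⟩ := hcon
        apply hr2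
        refine ⟨⟨hr, hra, pow_mem hr hx₀ ht hta h2⟩, ?_⟩
        have h3 : IsAlgebraic ℚ (r * x₀ * (t * Real.exp u₀)) := by
          by_contra h4
          exact h1 h4
        have h4 : x₀ * Real.exp u₀ = (r * t)⁻¹ * (r * x₀ * (t * Real.exp u₀)) := by
          field_simp
        rw [h4]
        exact (hra.mul hta).inv.mul h3
      · intro hr3 h
        exact hr3 ⟨hr, hra, pow_mem hr hx₀ ht hta h⟩

end Pool.Agent.Results.MP_a49cf6_nt.FourForMultiples
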