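import Pool.Agent.Zk26.Kummer

set_option autoImplicit false

/-!
# The five numbers for multipliers which satisfy an additive relation

A positive algebraic number `t` is called regular here if for `X = t π`, `Y = t e` (more generally
`X = t (π + c)`, `Y = t e ^ s`) the three numbers `X ^ X`, `X ^ Y`, `Y ^ Y` are transcendental and
remain so when the exponent is multiplied by an arbitrary algebraic number `β ≠ 0`.  For regular `t`
at least four of the five numbers `X + Y`, `X Y`, `X ^ Y`, `Y ^ Y`, `X ^ X` are transcendental.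

We consider all positive algebraic solutions `r = (r_1, …, r_n)`, without any restriction of their
degrees, of an equation `∑ a_ν r ^ (e_ν) = 1` with positive algebraic coefficients and arbitrary
integral exponents.  Outside of finitely many values of the vector of the monomials `r ^ (e_ν)`
at least one of the numbers `r_1, …, r_n` is regular.  Examples:

* one of `r`, `r + 1` is regular for all but finitely many positive algebraic numbers `r`;
* one of `r`, `s`, `r + s` is regular for all positive algebraic `r`, `s` with finitely many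
  exceptional values of `r / s`.

The proof combines the strong six exponentials theorem, Baker's theorem and the theorem on the unit
equation in several variables (subspace theorem).
-/

namespace Pool.Agent.Results.MP_a49cf6_nt.MultiplesOnHypersurfaces

open Pool.Agent.H301R2.SSE Pool.Agent.Zk26

/-- all numbers `β₀ + β₁ λ₁ + ⋯ + βₙ λₙ` with algebraic `βᵢ` and algebraic `e ^ λᵢ` -/
noncomputable def LogForms : Submodule (algebraicClosure ℚ ℂ) ℂ :=
  Submodule.span (algebraicClosure ℚ ℂ) ({1} ∪ {z : ℂ | IsAlgebraic ℚ (Complex.exp z)})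

/-- the real numbers `e ^ z`, `z` in `LogForms` -/
def ExpForm (x : ℝ) : Prop := ∃ z ∈ LogForms, Complex.exp z = (x : ℂ)

/-- `t` is regular for the pair `(π + c, e ^ s)` -/
def Regular (c s t : ℝ) : Prop :=
  ∀ β : ℝ, β ≠ 0 → IsAlgebraic ℚ β →
    ¬ ExpForm ((t * (Real.pi + c)) ^ (β * (Real.pi + c))) ∧
    ¬ ExpForm ((t * (Real.pi + c)) ^ (β * Real.exp s)) ∧
    ¬ ExpForm ((t * Real.exp s) ^ (β * Real.exp s))

/-- `r` is a positive algebraic solution of the equation `∑ a_ν r ^ (e_ν) = 1` -/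
def Solution {n m : ℕ} (e : Fin m → Fin n → ℤ) (a : Fin m → ℝ) (r : Fin n → ℝ) : Prop :=
  (∀ i, 0 < r i ∧ IsAlgebraic ℚ (r i)) ∧ ∑ ν, a ν * ∏ i, r i ^ e ν i = 1

/-- the exceptional multipliers lie in the divisible group generated by finitely many numbers -/
theorem irregular {c s : ℝ} (hc : IsAlgebraic ℚ c) (hs : IsAlgebraic ℚ s)
    (hc0 : 0 < Real.pi + c) (hs0 : s ≠ 0) :
    ∃ F : Finset ℝ, (∀ g ∈ F, 0 < g ∧ IsAlgebraic ℚ g) ∧
      ∀ t : ℝ, 0 < t → IsAlgebraic ℚ t → ¬ Regular c s t → Real.log t ∈ LS F := by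
  classical
  obtain ⟨hxL, hxR, hxt⟩ := pi_add_proper hc
  obtain ⟨huL, huR⟩ := alg_proper hs hs0
  obtain ⟨h1, h2, h3⟩ := three_sets hxt hxL huL huR
  obtain ⟨F₁, hF₁, hF₁'⟩ := gens_of_rank 1 _ (fun r hr => hr.1) h1
  obtain ⟨F₂, hF₂, hF₂'⟩ := gens_of_rank 2 _ (fun r hr => hr.1) h2
  obtain ⟨F₃, hF₃, hF₃'⟩ := gens_of_rank 1 _ (fun r hr => hr.1) h3
  refine ⟨F₁ ∪ F₂ ∪ F₃, ?_, ?_⟩
  · intro g hg
    rcases Finset.mem_union.mp hg with h | h
    · rcases Finset.mem_union.mp h with h | h
      · exact ⟨(hF₁ g h).1, (hF₁ g h).2.1⟩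
      · exact ⟨(hF₂ g h).1, (hF₂ g h).2.1⟩
    · exact ⟨(hF₃ g h).1, (hF₃ g h).2.1⟩
  · intro t ht hta hreg
    unfold Regular at hreg
    push Not at hreg
    obtain ⟨β, hβ, hβa, h⟩ := hreg
    by_cases e1 : ExpForm ((t * (Real.pi + c)) ^ (β * (Real.pi + c)))
    · exact LS_mono (Finset.subset_union_left.trans Finset.subset_union_left)
        (hF₁' t ⟨ht, hta, pow_mem ht hc0 hβ hβa e1⟩)
    · by_cases e2 : ExpForm ((t * (Real.pi + c)) ^ (β * Real.exp s))
      · exact LS_mono (Finset.subset_union_right.trans Finset.subset_union_left)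
          (hF₂' t ⟨ht, hta, pow_mem ht hc0 hβ hβa e2⟩)
      · have e3 := h e1 e2
        refine LS_mono Finset.subset_union_right (hF₃' t ⟨ht, hta, ?_⟩)
        have := pow_mem ht (Real.exp_pos s) hβ hβa e3
        rwa [Real.log_exp] at this

/-- the logarithm of a monomial -/
theorem log_monomial {n : ℕ} {r : Fin n → ℝ} (hr : ∀ i, 0 < r i) (e : Fin n → ℤ) :
    Real.log (∏ i, r i ^ e i) = ∑ i, (e i : ℝ) * Real.log (r i) := by
  rw [Real.log_prod (fun i _ => (zpow_pos (hr i) _).ne')]
  exact Finset.sum_congr rfl fun i _ => Real.log_zpow _ _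

/-- **The five numbers for multipliers which satisfy an additive relation.** -/
theorem result (c s : ℝ) (hc : IsAlgebraic ℚ c) (hs : IsAlgebraic ℚ s) (hc0 : 0 < Real.pi + c)
    (hs0 : s ≠ 0) :
    -- at least four of the five numbers are transcendental for regular multipliers
    (∀ t X Y : ℝ, 0 < t → IsAlgebraic ℚ t → Regular c s t → X = t * (Real.pi + c) →
      Y = t * Real.exp s →
        Transcendental ℚ (X ^ X) ∧ Transcendental ℚ (X ^ Y) ∧ Transcendental ℚ (Y ^ Y) ∧
          (Transcendental ℚ (X + Y) ∨ Transcendental ℚ (X * Y))) ∧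
    -- one of the multipliers is regular
    (∀ (n m : ℕ) (e : Fin m → Fin n → ℤ) (a : Fin m → ℝ),
      (∀ ν, 0 < a ν ∧ IsAlgebraic ℚ (a ν)) →
      ∃ Φ : Set (Fin m → ℝ), Φ.Finite ∧ ∀ r : Fin n → ℝ, Solution e a r →
        (fun ν => ∏ i, r i ^ e ν i) ∉ Φ → ∃ i, Regular c s (r i)) ∧
    -- there are only finitely many exceptions if the exponents generate the whole space
    (∀ (n m : ℕ) (e : Fin m → Fin n → ℤ) (a : Fin m → ℝ),
      (∀ ν, 0 < a ν ∧ IsAlgebraic ℚ (a ν)) →
      (∀ w : Fin n → ℝ, (∀ ν, ∑ i, (e ν i : ℝ) * w i = 0) → w = 0) →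
        {r : Fin n → ℝ | Solution e a r ∧ ∀ i, ¬ Regular c s (r i)}.Finite) := by
  obtain ⟨F, hF, hirr⟩ := irregular hc hs hc0 hs0
  have hΦ : ∀ (n m : ℕ) (e : Fin m → Fin n → ℤ) (a : Fin m → ℝ),
      (∀ ν, 0 < a ν ∧ IsAlgebraic ℚ (a ν)) →
      ∃ Φ : Set (Fin m → ℝ), Φ.Finite ∧ ∀ r : Fin n → ℝ, Solution e a r →
        (fun ν => ∏ i, r i ^ e ν i) ∉ Φ → ∃ i, Regular c s (r i) := by
    intro n m e a ha
    refine ⟨_, pos_finite F (fun g hg => (hF g hg).1) (fun g hg => (hF g hg).2) a
      (fun ν => (ha ν).1) (fun ν => (ha ν).2), fun r hr hnot => ?_⟩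
    by_contra hcon
    push Not at hcon
    apply hnot
    refine ⟨fun ν => ⟨Finset.prod_pos fun i _ => zpow_pos (hr.1 i).1 _, ?_⟩, hr.2⟩
    rw [log_monomial (fun i => (hr.1 i).1)]
    refine Submodule.sum_mem _ fun i _ => ?_
    have h1 := hirr (r i) (hr.1 i).1 (hr.1 i).2 (hcon i)
    have h2 := Submodule.smul_mem (LS F) (e ν i : ℚ) h1
    rw [Rat.smul_def] at h2
    exact_mod_cast h2
  refine ⟨?_, hΦ, ?_⟩
  · intro t X Y ht hta hreg hX hY
    obtain ⟨r1, r2, r3⟩ := hreg t ht.ne' hta
    have hX0 : 0 < X := by rw [hX]; exact mul_pos ht hc0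
    have hY0 : 0 < Y := by rw [hY]; exact mul_pos ht (Real.exp_pos s)
    refine ⟨fun h => ?_, fun h => ?_, fun h => ?_, ?_⟩
    · have := InB_of_alg (Real.rpow_pos_of_pos hX0 X).ne' h
      rw [hX] at this
      exact r1 this
    · have := InB_of_alg (Real.rpow_pos_of_pos hX0 Y).ne' h
      rw [hX, hY] at this
      exact r2 this
    · have := InB_of_alg (Real.rpow_pos_of_pos hY0 Y).ne' h
      rw [hY] at this
      exact r3 this
    · by_contra hcon
      push Not at hcon
      obtain ⟨h1, h2⟩ := hcon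
      have h1' : IsAlgebraic ℚ (X + Y) := by
        by_contra h; exact h1 h
      have h2' : IsAlgebraic ℚ (X * Y) := by
        by_contra h; exact h2 h
      -- `X` is a root of a quadratic polynomial
      have hsq : IsAlgebraic ℚ ((X - Y) ^ 2) := by
        have h3 : (X - Y) ^ 2 = (X + Y) ^ 2 - 4 * (X * Y) := by ring
        rw [h3]
        refine (h1'.pow 2).sub (IsAlgebraic.mul ?_ h2')
        exact_mod_cast isAlgebraic_algebraMap (4 : ℚ)
      have hd : IsAlgebraic ℚ (X - Y) := hsq.of_pow (by norm_num)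
      have hXa : IsAlgebraic ℚ X := by
        have h3 : X = ((X + Y) + (X - Y)) * (2 : ℝ)⁻¹ := by ring
        rw [h3]
        refine (h1'.add hd).mul ?_
        have h5 := isAlgebraic_algebraMap (R := ℚ) (A := ℝ) ((2 : ℚ)⁻¹)
        simpa using h5
      have h4 : Real.pi + c = t⁻¹ * X := by
        rw [hX]
        field_simp
      exact (pi_add_proper hc).2.2 (by rw [h4]; exact hta.inv.mul hXa)
  · intro n m e a ha hspan
    obtain ⟨Φ, hΦf, hΦ'⟩ := hΦ n m e a ha
    have hinj : Set.InjOn (fun r : Fin n → ℝ => fun ν => ∏ i, r i ^ e ν i)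
        {r : Fin n → ℝ | Solution e a r ∧ ∀ i, ¬ Regular c s (r i)} := by
      intro r hr r' hr' h
      have h1 : (fun i => Real.log (r i) - Real.log (r' i)) = 0 := by
        apply hspan
        intro ν
        have h2 := congrArg Real.log (congrFun h ν)
        simp only at h2
        rw [log_monomial (fun i => (hr.1.1 i).1), log_monomial (fun i => (hr'.1.1 i).1)] at h2
        simp only [mul_sub, Finset.sum_sub_distrib]
        rw [h2, sub_self]
      funext i
      have h3 := congrFun h1 i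
      exact Real.log_injOn_pos (Set.mem_Ioi.mpr (hr.1.1 i).1) (Set.mem_Ioi.mpr (hr'.1.1 i).1)
        (sub_eq_zero.mp h3)
    refine Set.Finite.of_finite_image (hΦf.subset ?_) hinj
    rintro y ⟨r, ⟨hr, hirr'⟩, rfl⟩
    by_contra hnot
    obtain ⟨i, hi⟩ := hΦ' r hr hnot
    exact hirr' i hi

end Pool.Agent.Results.MP_a49cf6_nt.MultiplesOnHypersurfaces
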