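import Pool.Agent.Zk26.Sets
import Pool.Agent.Zk26.RatVal

set_option autoImplicit false

/-!
# The five numbers for the values of rational functions as multipliers

Let `K` be a number field in `ℝ` and let `f`, `g` be rational functions over `K` with at least
three zeros and poles on the projective line (for instance polynomials with at least two different
complex zeros) whose quotient is not constant.  Then for all but finitely many `q` in `K` with
`f(q), g(q) > 0` the four numbers `X + Y`, `X ^ Y`, `Y ^ Y`, `X ^ X` with `X = f(q) (π + c)`,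
`Y = g(q) e ^ s` are transcendental, for all real algebraic `c` and `s ≠ 0`; the fifth number
`X Y` is also transcendental, except possibly for one pair `(c, s)`.

For instance `((n² + 1) π) ^ ((n² + 1) π)`, `((n² + 1) π) ^ ((n² + 1) e)` and
`((n² + 1) e) ^ ((n² + 1) e)` are transcendental for all but finitely many integers `n`.

The proof combines the strong six exponentials theorem (the exceptional multipliers form cosets of
groups of rank at most two), Baker's theorem and the finiteness theorem for the unit equation.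
-/

namespace Pool.Agent.Results.MP_a49cf6_nt.RationalFunctionMultiples

open Polynomial
open Pool.Agent.H301R2.SSE Pool.Agent.Zk26

/-- all numbers `β₀ + β₁ λ₁ + ⋯ + βₙ λₙ` with algebraic `βᵢ` and algebraic `e ^ λᵢ` -/
noncomputable def LogForms : Submodule (algebraicClosure ℚ ℂ) ℂ :=
  Submodule.span (algebraicClosure ℚ ℂ) ({1} ∪ {z : ℂ | IsAlgebraic ℚ (Complex.exp z)})

/-- the real numbers `e ^ z`, `z` in `LogForms` -/
def ExpForm (x : ℝ) : Prop := ∃ z ∈ LogForms, Complex.exp z = (x : ℂ)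

/-- `P / Q` is a rational function in lowest terms which has at least three different zeros and
poles on the projective line; `∞` is a zero or a pole if and only if the degrees differ -/
def ThreePoints {K : Type} [Field K] (σ : K →+* ℝ) (P Q : K[X]) : Prop :=
  IsCoprime P Q ∧ P ≠ 0 ∧ Q ≠ 0 ∧
    3 ≤ {z : ℂ | ((P * Q).map ((algebraMap ℝ ℂ).comp σ)).eval z = 0}.ncard +
      (if P.natDegree = Q.natDegree then 0 else 1)

/-- the value of `P / Q` at `q`, as a real number -/
noncomputable def val {K : Type} [Field K] (σ : K →+* ℝ) (P Q : K[X]) (q : K) : ℝ :=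
  σ (P.eval q) / σ (Q.eval q)

theorem alg_of_field {K : Type} [Field K] [NumberField K] (σ : K →+* ℝ) (x : K) :
    IsAlgebraic ℚ (σ x) := by
  have h : IsAlgebraic ℚ x := Algebra.IsAlgebraic.isAlgebraic x
  exact h.algHom σ.toRatAlgHom

/-- the values in a set of finite rank -/
theorem val_finite {K : Type} [Field K] [NumberField K] (σ : K →+* ℝ) {P Q : K[X]}
    (h : ThreePoints σ P Q) {k : ℕ} {S : Set ℝ} (hS : Rk k S) (hpos : ∀ r ∈ S, 0 < r) :
    {q : K | 0 < val σ P Q q ∧ val σ P Q q ∈ S}.Finite := by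
  obtain ⟨hco, hP, hQ, h3⟩ := h
  refine (rat_rank_finite k {x : K | σ x ∈ S} ?_ ?_ P Q hP hQ hco _ h3).subset ?_
  · rintro x hx h0
    have h1 : σ x ∈ S := hx
    rw [h0, map_zero] at h1
    exact lt_irrefl _ (hpos 0 h1)
  · intro a ha f hf
    obtain ⟨m, hm, hm1⟩ := hS (σ a) ha (fun i => σ (f i)) hf
    refine ⟨m, hm, ?_⟩
    apply σ.injective
    rw [map_prod, map_one, ← hm1]
    apply Finset.prod_congr rfl
    intro i _
    rw [map_zpow₀, map_div₀]
  · rintro q ⟨hq, hqS⟩
    have hQq : Q.eval q ≠ 0 := by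
      intro h0
      unfold val at hq
      rw [h0, map_zero, div_zero] at hq
      exact lt_irrefl _ hq
    refine ⟨hQq, ?_⟩
    change σ (P.eval q / Q.eval q) ∈ S
    rw [map_div₀]
    exact hqS

/-- **The five numbers for the values of rational functions.** -/
theorem result :
    -- all algebraic numbers different from zero are of the form `e ^ z`, `z` in `LogForms`
    (∀ x : ℝ, x ≠ 0 → IsAlgebraic ℚ x → ExpForm x) ∧
    -- there is at most one exceptional pair `(c, s)`
    ∃ c₀ s₀ : ℝ, ∀ c s : ℝ, IsAlgebraic ℚ c → IsAlgebraic ℚ s → 0 < Real.pi + c → s ≠ 0 →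
      ∀ (K : Type) [Field K] [NumberField K] (σ : K →+* ℝ),
        (∀ P Q : K[X], ThreePoints σ P Q → ∃ E : Set K, E.Finite ∧ ∀ q ∉ E, ∀ r : ℝ,
          r = val σ P Q q → 0 < r → ∀ β : ℝ, β ≠ 0 → IsAlgebraic ℚ β →
            ¬ ExpForm ((r * (Real.pi + c)) ^ (β * (Real.pi + c))) ∧
            ¬ ExpForm ((r * (Real.pi + c)) ^ (β * Real.exp s)) ∧
            ¬ ExpForm ((r * Real.exp s) ^ (β * Real.exp s))) ∧
        (∀ P₁ Q₁ P₂ Q₂ : K[X], ThreePoints σ P₁ Q₁ → ThreePoints σ P₂ Q₂ →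
          (∀ κ : K, P₂ * Q₁ ≠ C κ * (P₁ * Q₂)) → ∃ E : Set K, E.Finite ∧ ∀ q ∉ E,
            0 < val σ P₁ Q₁ q → 0 < val σ P₂ Q₂ q → ∀ X Y : ℝ,
              X = val σ P₁ Q₁ q * (Real.pi + c) → Y = val σ P₂ Q₂ q * Real.exp s →
              Transcendental ℚ (X + Y) ∧ Transcendental ℚ (X ^ Y) ∧ Transcendental ℚ (Y ^ Y) ∧
              Transcendental ℚ (X ^ X) ∧
              ((c, s) ≠ (c₀, s₀) → Transcendental ℚ (X * Y))) := by
  refine ⟨fun x hx h => InB_of_alg hx h, ?_⟩
  obtain ⟨c₀, s₀, hone⟩ := one_exception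
  refine ⟨c₀, s₀, ?_⟩
  intro c s hc hs hc0 hs0 K _ _ σ
  obtain ⟨hxL, hxR, hxt⟩ := pi_add_proper hc
  obtain ⟨huL, huR⟩ := alg_proper hs hs0
  obtain ⟨h1, h2, h3⟩ := three_sets hxt hxL huL huR
  -- the first part
  have key : ∀ P Q : K[X], ThreePoints σ P Q → ∃ E : Set K, E.Finite ∧ ∀ q ∉ E, ∀ r : ℝ,
      r = val σ P Q q → 0 < r → ∀ β : ℝ, β ≠ 0 → IsAlgebraic ℚ β →
        ¬ ExpForm ((r * (Real.pi + c)) ^ (β * (Real.pi + c))) ∧
        ¬ ExpForm ((r * (Real.pi + c)) ^ (β * Real.exp s)) ∧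
        ¬ ExpForm ((r * Real.exp s) ^ (β * Real.exp s)) := by
    intro P Q hPQ
    refine ⟨_, ((val_finite σ hPQ h1 (fun r hr => hr.1)).union
      (val_finite σ hPQ h2 (fun r hr => hr.1))).union
        (val_finite σ hPQ h3 (fun r hr => hr.1)), ?_⟩
    intro q hq r hr hr0 β hβ hβa
    have hra : IsAlgebraic ℚ r := by
      rw [hr, val, div_eq_mul_inv]
      exact (alg_of_field σ _).mul (alg_of_field σ _).inv
    refine ⟨fun h => hq (Or.inl (Or.inl ?_)), fun h => hq (Or.inl (Or.inr ?_)),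
      fun h => hq (Or.inr ?_)⟩
    · rw [hr] at hr0 hra h
      exact ⟨hr0, hr0, hra, pow_mem hr0 hc0 hβ hβa h⟩
    · rw [hr] at hr0 hra h
      exact ⟨hr0, hr0, hra, pow_mem hr0 hc0 hβ hβa h⟩
    · rw [hr] at hr0 hra h
      refine ⟨hr0, hr0, hra, ?_⟩
      have := pow_mem hr0 (Real.exp_pos s) hβ hβa h
      rwa [Real.log_exp] at this
  refine ⟨key, ?_⟩
  intro P₁ Q₁ P₂ Q₂ hf hg hfg
  obtain ⟨E₁, hE₁, hE₁'⟩ := key P₁ Q₁ hf
  obtain ⟨E₂, hE₂, hE₂'⟩ := key P₂ Q₂ hg
  obtain ⟨ρ, hρ⟩ := exists_ratio (x₀ := Real.pi + c) (exp_trans huR)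
  -- the values `q` with `g(q) = ρ f(q)`
  have hE₃ : {q : K | 0 < val σ P₁ Q₁ q ∧ 0 < val σ P₂ Q₂ q ∧
      val σ P₂ Q₂ q = ρ * val σ P₁ Q₁ q}.Finite := by
    by_cases hex : ∃ κ : K, σ κ = ρ
    · obtain ⟨κ, hκ⟩ := hex
      have hne : P₂ * Q₁ - C κ * (P₁ * Q₂) ≠ 0 := sub_ne_zero.mpr (hfg κ)
      refine (rootSet_finite (P₂ * Q₁ - C κ * (P₁ * Q₂)) K).subset ?_
      rintro q ⟨e1, e2, e3⟩
      rw [mem_rootSet]
      refine ⟨hne, ?_⟩
      have hQ1 : Q₁.eval q ≠ 0 := by
        intro h0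
        unfold val at e1
        rw [h0, map_zero, div_zero] at e1
        exact lt_irrefl _ e1
      have hQ2 : Q₂.eval q ≠ 0 := by
        intro h0
        unfold val at e2
        rw [h0, map_zero, div_zero] at e2
        exact lt_irrefl _ e2
      have e4 : P₂.eval q / Q₂.eval q = κ * (P₁.eval q / Q₁.eval q) := by
        apply σ.injective
        rw [map_div₀, map_mul, map_div₀, hκ]
        exact e3
      rw [coe_aeval_eq_eval, eval_sub, eval_mul, eval_mul, eval_mul, eval_C]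
      field_simp at e4
      linear_combination e4
    · refine Set.Finite.subset Set.finite_empty ?_
      rintro q ⟨e1, e2, e3⟩
      exfalso
      apply hex
      refine ⟨(P₂.eval q / Q₂.eval q) / (P₁.eval q / Q₁.eval q), ?_⟩
      rw [map_div₀, map_div₀, map_div₀]
      unfold val at e1 e3
      rw [e3]
      exact mul_div_cancel_right₀ ρ e1.ne'
  refine ⟨(E₁ ∪ E₂) ∪ {q : K | 0 < val σ P₁ Q₁ q ∧ 0 < val σ P₂ Q₂ q ∧
      val σ P₂ Q₂ q = ρ * val σ P₁ Q₁ q}, (hE₁.union hE₂).union hE₃, ?_⟩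
  intro q hq hr ht X Y hX hY
  have hra : IsAlgebraic ℚ (val σ P₁ Q₁ q) := by
    rw [val, div_eq_mul_inv]
    exact (alg_of_field σ _).mul (alg_of_field σ _).inv
  have hta : IsAlgebraic ℚ (val σ P₂ Q₂ q) := by
    rw [val, div_eq_mul_inv]
    exact (alg_of_field σ _).mul (alg_of_field σ _).inv
  have hX0 : 0 < X := by rw [hX]; exact mul_pos hr hc0
  have hY0 : 0 < Y := by rw [hY]; exact mul_pos ht (Real.exp_pos s)
  have k1 := fun β hβ hβa => hE₁' q (fun h => hq (Or.inl (Or.inl h))) _ rfl hr β hβ hβa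
  have k2 := fun β hβ hβa => hE₂' q (fun h => hq (Or.inl (Or.inr h))) _ rfl ht β hβ hβa
  refine ⟨?_, ?_, ?_, ?_, ?_⟩
  · intro h
    apply hq
    refine Or.inr ⟨hr, ht, ?_⟩
    rw [hX, hY] at h
    exact hρ _ _ hr ht hra hta h
  · intro h
    apply (k1 _ ht.ne' hta).2.1
    have := InB_of_alg (Real.rpow_pos_of_pos hX0 Y).ne' h
    rw [hX, hY] at this
    exact this
  · intro h
    apply (k2 _ ht.ne' hta).2.2
    have := InB_of_alg (Real.rpow_pos_of_pos hY0 Y).ne' h
    rw [hY] at this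
    exact this
  · intro h
    apply (k1 _ hr.ne' hra).1
    have := InB_of_alg (Real.rpow_pos_of_pos hX0 X).ne' h
    rw [hX] at this
    exact this
  · intro hne h
    apply hone c s hc hs hs0 hne
    have h5 : (Real.pi + c) * Real.exp s = (val σ P₁ Q₁ q * val σ P₂ Q₂ q)⁻¹ * (X * Y) := by
      rw [hX, hY]
      field_simp
    rw [h5]
    exact (hra.mul hta).inv.mul h

end Pool.Agent.Results.MP_a49cf6_nt.RationalFunctionMultiples
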